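import Mathlib

/-! # The reciprocal polynomial argument for maps of a conic to itself -/

set_option autoImplicit false

namespace Pool.Agent.Q35.CF

open Polynomial

noncomputable section

variable {L : Type} [Field L] (σ : L →+* L) (g : L) (D : ℕ)

/-- `T ^ D * p^σ (g / T)` -/
def st (p : L[X]) : L[X] := reflect D ((p.map σ).comp (C g * X))

lemma st_coeff (p : L[X]) {j : ℕ} (hj : j ≤ D) :
    (st σ g D p).coeff j = σ (p.coeff (D - j)) * g ^ (D - j) := by
  unfold st
  rw [coeff_reflect, revAt_le hj, comp_C_mul_X_coeff, coeff_map]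

lemma st_natDegree (p : L[X]) (hp : p.natDegree ≤ D) : (st σ g D p).natDegree ≤ D := by
  rw [natDegree_le_iff_coeff_eq_zero]
  intro N hN
  unfold st
  rw [coeff_reflect, revAt_eq_self_of_lt hN, comp_C_mul_X_coeff, coeff_map,
    coeff_eq_zero_of_natDegree_lt (lt_of_le_of_lt hp hN), map_zero, zero_mul]

lemma st_eval {W : Type} [Field W] (i : L →+* W) (p : L[X]) (hp : p.natDegree ≤ D) (t t' : W)
    (ht : t ≠ 0) (htt : t * t' = i g) :
    eval₂ i t (st σ g D p) = t ^ D * eval₂ (i.comp σ) t' p := by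
  unfold st
  haveI : Invertible t⁻¹ := invertibleOfNonzero (inv_ne_zero ht)
  have h1 : (C g * X : L[X]).natDegree ≤ 1 := by
    refine (natDegree_C_mul_le _ _).trans ?_
    exact natDegree_X_le
  have hd : ((p.map σ).comp (C g * X)).natDegree ≤ D := by
    refine natDegree_comp_le.trans ?_
    calc (p.map σ).natDegree * (C g * X : L[X]).natDegree ≤ D * 1 :=
          Nat.mul_le_mul (natDegree_map_le.trans hp) h1
      _ = D := mul_one D
  have h2 := eval₂_reflect_mul_pow i t⁻¹ D ((p.map σ).comp (C g * X)) hd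
  have h3 : (⅟ (t⁻¹) : W) = t := by
    rw [invOf_eq_inv, inv_inv]
  rw [h3] at h2
  have h4 : eval₂ i t⁻¹ ((p.map σ).comp (C g * X)) = eval₂ (i.comp σ) t' p := by
    rw [eval₂_comp, eval₂_map, eval₂_mul, eval₂_C, eval₂_X, ← htt]
    congr 1
    field_simp
  rw [h4] at h2
  rw [← h2]
  rw [mul_comm (t ^ D), mul_assoc, ← mul_pow, inv_mul_cancel₀ ht, one_pow, mul_one]

theorem norm_of_star (hσ : ∀ x, σ (σ x) = x) (hg : g ≠ 0) (hσg : σ g = g) (P Q : L[X])
    (hP : P ≠ 0) (hQ : Q ≠ 0) (hco : IsCoprime P Q) (hD : D = max P.natDegree Q.natDegree)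
    (h : st σ g D P * P = C g * (st σ g D Q * Q)) : ∃ u : L, σ u * u = g ^ (D + 1) := by
  have hPD : P.natDegree ≤ D := hD ▸ le_max_left _ _
  have hQD : Q.natDegree ≤ D := hD ▸ le_max_right _ _
  obtain ⟨U, hU⟩ : Q ∣ st σ g D P := by
    refine hco.symm.dvd_of_dvd_mul_right ?_
    rw [h]
    exact ⟨C g * st σ g D Q, by ring⟩
  obtain ⟨V, hV⟩ : P ∣ C g * st σ g D Q := by
    refine hco.dvd_of_dvd_mul_right ?_
    rw [mul_assoc, ← h]
    exact ⟨st σ g D P, by ring⟩
  have hUV : U = V := by
    have h1 : (Q * U) * P = (P * V) * Q := by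
      rw [← hU, ← hV, h]
      ring
    have h2 : (P * Q) * U = (P * Q) * V := by linear_combination h1
    exact mul_left_cancel₀ (mul_ne_zero hP hQ) h2
  subst hUV
  have hdU : U.natDegree = 0 := by
    by_cases hU0 : U = 0
    · rw [hU0, natDegree_zero]
    have e1 : Q.natDegree + U.natDegree ≤ D := by
      rw [← natDegree_mul hQ hU0, ← hU]
      exact st_natDegree σ g D P hPD
    have e2 : P.natDegree + U.natDegree ≤ D := by
      rw [← natDegree_mul hP hU0, ← hV]
      exact (natDegree_C_mul_le _ _).trans (st_natDegree σ g D Q hQD)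
    rcases le_total P.natDegree Q.natDegree with hle | hle
    · rw [max_eq_right hle] at hD
      omega
    · rw [max_eq_left hle] at hD
      omega
  obtain ⟨u, rfl⟩ : ∃ u, U = C u := ⟨U.coeff 0, eq_C_of_natDegree_eq_zero hdU⟩
  refine ⟨u, ?_⟩
  set j := P.natDegree with hj
  have hc1 : σ (P.coeff j) * g ^ j = u * Q.coeff (D - j) := by
    have := congrArg (fun p => coeff p (D - j)) hU
    simp only [st_coeff σ g D P (Nat.sub_le D j), Nat.sub_sub_self hPD, mul_comm Q,
      coeff_C_mul] at this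
    exact this
  have hc2 : g * (σ (Q.coeff (D - j)) * g ^ (D - j)) = u * P.coeff j := by
    have := congrArg (fun p => coeff p j) hV
    simp only [coeff_C_mul, st_coeff σ g D Q hPD, mul_comm P] at this
    exact this
  have hc3 : P.coeff j * g ^ j = σ u * σ (Q.coeff (D - j)) := by
    have := congrArg σ hc1
    rw [map_mul, map_mul, map_pow, hσ, hσg] at this
    exact this
  have hPj : P.coeff j ≠ 0 := by
    rw [hj, coeff_natDegree]
    exact leadingCoeff_ne_zero.mpr hP
  apply mul_right_cancel₀ hPj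
  calc σ u * u * P.coeff j = σ u * (u * P.coeff j) := by ring
    _ = σ u * (g * (σ (Q.coeff (D - j)) * g ^ (D - j))) := by rw [hc2]
    _ = g * g ^ (D - j) * (σ u * σ (Q.coeff (D - j))) := by ring
    _ = g * g ^ (D - j) * (P.coeff j * g ^ j) := by rw [hc3]
    _ = (g ^ (D - j) * g ^ j) * g * P.coeff j := by ring
    _ = g ^ (D + 1) * P.coeff j := by rw [← pow_add, Nat.sub_add_cancel hPD, pow_succ]

end

end Pool.Agent.Q35.CF
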