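import Mathlib
import Pool.Agent.Q35.CF.Star

/-! # The two embeddings of `L(T)` -/

set_option autoImplicit false
set_option linter.unusedSectionVars false

namespace Pool.Agent.Q35.CF

open Polynomial IntermediateField
open scoped nonZeroDivisors

noncomputable section

section Gen

variable {K L W : Type} [Field K] [Field L] [Field W] [Algebra K L] [Algebra K W]

lemma eval_inj [Algebra.IsAlgebraic K L] (i : L →ₐ[K] W) (t : W) (ht : Transcendental K t)
    (p : L[X]) (hp : eval₂ (i : L →+* W) t p = 0) : p = 0 := by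
  by_contra hne
  let _ : Algebra L W := (i : L →+* W).toAlgebra
  have : IsScalarTower K L W := IsScalarTower.of_algebraMap_eq fun x => (i.commutes x).symm
  have h1 : IsAlgebraic L t := ⟨p, hne, hp⟩
  exact ht (h1.restrictScalars K)

lemma le_comap (φ : L[X] →+* W) (hφ : ∀ p, φ p = 0 → p = 0) : L[X]⁰ ≤ W⁰.comap φ := by
  intro p hp
  rw [Submonoid.mem_comap, mem_nonZeroDivisors_iff_ne_zero]
  intro h
  exact (nonZeroDivisors.ne_zero hp) (hφ p h)

/-- evaluation at `t` -/
def ev (i : L →+* W) (t : W) (h : ∀ p : L[X], eval₂ i t p = 0 → p = 0) : RatFunc L →+* W :=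
  RatFunc.liftRingHom (eval₂RingHom i t) (le_comap _ h)

lemma ev_apply (i : L →+* W) (t : W) (h : ∀ p : L[X], eval₂ i t p = 0 → p = 0) (r : RatFunc L) :
    ev i t h r = eval₂ i t r.num / eval₂ i t r.denom := by
  unfold ev
  conv_lhs => rw [← RatFunc.num_div_denom r]
  rw [RatFunc.liftRingHom_apply_div]
  rfl

lemma ev_poly (i : L →+* W) (t : W) (h : ∀ p : L[X], eval₂ i t p = 0 → p = 0) (p : L[X]) :
    ev i t h (algebraMap L[X] (RatFunc L) p) = eval₂ i t p := by
  unfold ev
  rw [RatFunc.liftRingHom_algebraMap]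
  rfl

lemma ev_X (i : L →+* W) (t : W) (h : ∀ p : L[X], eval₂ i t p = 0 → p = 0) :
    ev i t h RatFunc.X = t := by
  rw [← RatFunc.algebraMap_X, ev_poly, eval₂_X]

lemma ev_C (i : L →+* W) (t : W) (h : ∀ p : L[X], eval₂ i t p = 0 → p = 0) (l : L) :
    ev i t h (algebraMap L (RatFunc L) l) = i l := by
  have : algebraMap L (RatFunc L) l = algebraMap L[X] (RatFunc L) (C l) := by
    rw [RatFunc.algebraMap_C, RatFunc.algebraMap_eq_C]
  rw [this, ev_poly, eval₂_C]

end Gen


lemma two_ne (K : Type) {W : Type} [Field K] [CharZero K] [Field W] [Algebra K W] :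
    (2 : W) ≠ 0 := by
  have : algebraMap K W 2 ≠ 0 := (_root_.map_ne_zero _).mpr two_ne_zero
  rwa [map_ofNat] at this

section Conic

variable {K M W : Type} [Field K] [CharZero K] [Field M] [Field W] [Algebra K M] [Algebra K W]
  [Algebra M W] [IsScalarTower K M W] {d g : K} [Fact (∀ r : K, r ^ 2 ≠ d + 0 * r)]

/-- the quadratic extension -/
abbrev QL (d : K) : Type := QuadraticAlgebra K d 0

/-- the embedding of the quadratic extension given by a square root -/
def iL (s : W) (hs : s * s = algebraMap K W d) : QL d →ₐ[K] W :=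
  QuadraticAlgebra.lift ⟨s, by rw [hs, zero_smul, add_zero, Algebra.algebraMap_eq_smul_one]⟩

lemma iL_apply (s : W) (hs : s * s = algebraMap K W d) (l : QL d) :
    iL s hs l = algebraMap K W l.re + algebraMap K W l.im * s := by
  unfold iL
  rw [QuadraticAlgebra.lift_apply_apply, Algebra.algebraMap_eq_smul_one, Algebra.smul_def l.im s]

/-- the conjugation -/
def sg : QL d →+* QL d := starRingEnd (QL d)

lemma sg_re (l : QL d) : (sg l).re = l.re := by
  change (star l).re = l.re
  rw [QuadraticAlgebra.re_star, zero_mul, add_zero]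

lemma sg_im (l : QL d) : (sg l).im = - l.im := by
  change (star l).im = - l.im
  rw [QuadraticAlgebra.im_star]

lemma sg_sg (l : QL d) : sg (sg l) = l := by
  change star (star l) = l
  exact star_star l

lemma sg_alg (a : K) : sg (algebraMap K (QL d) a) = algebraMap K (QL d) a := by
  ext
  · rw [sg_re]
  · rw [sg_im, QuadraticAlgebra.algebraMap_im, neg_zero]

lemma norm_alg (l : QL d) : sg l * l = algebraMap K (QL d) (l.re ^ 2 - d * l.im ^ 2) := by
  change star l * l = _
  rw [mul_comm, ← QuadraticAlgebra.algebraMap_norm_eq_mul_star, QuadraticAlgebra.norm_def]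
  congr 1
  ring

lemma s_ne (s : W) (hs : s * s = algebraMap K W d) : s ≠ 0 := by
  rintro rfl
  have hF := (Fact.out : ∀ r : K, r ^ 2 ≠ d + 0 * r) 0
  apply hF
  rw [mul_zero] at hs
  have : d = 0 := (map_eq_zero_iff _ (algebraMap K W).injective).mp hs.symm
  rw [this]
  ring


/-- the parameter of the conic attached to a point -/
def pt (s : W) (x y : M) : W := algebraMap M W x + s * algebraMap M W y

lemma pt_mul (s : W) (hs : s * s = algebraMap K W d) (x y : M)
    (hxy : x ^ 2 - algebraMap K M d * y ^ 2 = algebraMap K M g) :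
    pt s x y * pt (-s) x y = algebraMap K W g := by
  unfold pt
  rw [IsScalarTower.algebraMap_apply K M W g, ← hxy]
  rw [IsScalarTower.algebraMap_apply K M W d] at hs
  simp only [map_sub, map_mul, map_pow]
  linear_combination -(algebraMap M W y) ^ 2 * hs

lemma pt_ne (hg : g ≠ 0) (s : W) (hs : s * s = algebraMap K W d) (x y : M)
    (hxy : x ^ 2 - algebraMap K M d * y ^ 2 = algebraMap K M g) : pt s x y ≠ 0 := by
  intro h
  have := pt_mul s hs x y hxy
  rw [h, zero_mul] at this
  exact hg ((map_eq_zero_iff _ (algebraMap K W).injective).mp this.symm)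

lemma transc (hg : g ≠ 0) (s : W) (hs : s * s = algebraMap K W d) (x y : M)
    (hxy : x ^ 2 - algebraMap K M d * y ^ 2 = algebraMap K M g)
    (hM : ¬ Algebra.IsAlgebraic K M) (hgen : IntermediateField.adjoin K {x, y} = ⊤) :
    Transcendental K (pt s x y) := by
  intro h
  have hm := pt_mul s hs x y hxy
  have hne := pt_ne hg s hs x y hxy
  have hsa : IsAlgebraic K s := by
    have h1 : IsAlgebraic K (s ^ 2) := by
      rw [pow_two, hs]
      exact isAlgebraic_algebraMap d
    exact IsAlgebraic.of_pow (by norm_num) h1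
  have h' : pt (-s) x y = algebraMap K W g * (pt s x y)⁻¹ := by
    field_simp
    rw [mul_comm]
    exact hm
  have h2 : IsAlgebraic K (pt (-s) x y) := by
    rw [h']
    exact (isAlgebraic_algebraMap g).mul h.inv
  have hx : algebraMap M W x = (pt s x y + pt (-s) x y) * (algebraMap K W 2)⁻¹ := by
    have h3 : (2 : W) ≠ 0 := two_ne K
    rw [map_ofNat]
    unfold pt
    field_simp
    ring
  have hy : algebraMap M W y = (pt s x y - pt (-s) x y) * (algebraMap K W 2 * s)⁻¹ := by
    have h3 : (2 : W) ≠ 0 := two_ne K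
    have h4 := s_ne s hs
    rw [map_ofNat]
    unfold pt
    field_simp
    ring
  have ax : IsAlgebraic K x := by
    have : IsAlgebraic K (algebraMap M W x) := by
      rw [hx]
      exact (h.add h2).mul (isAlgebraic_algebraMap (2 : K)).inv
    exact (isAlgebraic_algebraMap_iff (algebraMap M W).injective).mp this
  have ay : IsAlgebraic K y := by
    have : IsAlgebraic K (algebraMap M W y) := by
      rw [hy]
      exact (h.sub h2).mul ((isAlgebraic_algebraMap (2 : K)).mul hsa).inv
    exact (isAlgebraic_algebraMap_iff (algebraMap M W).injective).mp this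
  apply hM
  have h5 : Algebra.IsAlgebraic K (IntermediateField.adjoin K {x, y}) := by
    apply IntermediateField.isAlgebraic_adjoin
    rintro z (rfl | rfl)
    · exact ax.isIntegral
    · exact ay.isIntegral
  rw [hgen] at h5
  exact ⟨fun z => by
    have := h5.isAlgebraic (⟨z, trivial⟩ : (⊤ : IntermediateField K M))
    exact (isAlgebraic_algebraMap_iff
      (algebraMap (⊤ : IntermediateField K M) M).injective).mpr this⟩

end Conic

end

end Pool.Agent.Q35.CF
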