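import Mathlib
import Pool.Agent.Q35.CF.Setup

/-! # The function field of an anisotropic conic inside `L(T)` -/

set_option autoImplicit false
set_option linter.unusedSectionVars false

namespace Pool.Agent.Q35.CF

open Polynomial IntermediateField
open scoped nonZeroDivisors

noncomputable section

variable {K M W : Type} [Field K] [CharZero K] [Field M] [Field W] [Algebra K M] [Algebra K W]
  [Algebra M W] [IsScalarTower K M W] {d g : K} [Fact (∀ r : K, r ^ 2 ≠ d + 0 * r)]

/-- the generic point data -/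
structure Dat (K M W : Type) [Field K] [Field M] [Field W] [Algebra K M] [Algebra K W]
    [Algebra M W] (d g : K) : Type where
  s : W
  hs : s * s = algebraMap K W d
  x : M
  y : M
  hxy : x ^ 2 - algebraMap K M d * y ^ 2 = algebraMap K M g
  hM : ¬ Algebra.IsAlgebraic K M
  hgen : IntermediateField.adjoin K {x, y} = ⊤
  hg : g ≠ 0

/-- the conjugate data -/
def Dat.neg (D : Dat K M W d g) : Dat K M W d g :=
  { D with s := - D.s, hs := by rw [neg_mul_neg, D.hs] }

/-- the embedding of the rational function field -/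
def Dat.emb (D : Dat K M W d g) : RatFunc (QL d) →+* W :=
  ev (iL D.s D.hs : QL d →+* W) (pt D.s D.x D.y) fun p hp =>
    eval_inj (iL D.s D.hs) _ (transc D.hg D.s D.hs D.x D.y D.hxy D.hM D.hgen) p hp

lemma emb_C (D : Dat K M W d g) (l : QL d) :
    D.emb (algebraMap (QL d) (RatFunc (QL d)) l) = iL D.s D.hs l :=
  ev_C _ _ _ l

lemma emb_X (D : Dat K M W d g) : D.emb RatFunc.X = pt D.s D.x D.y := ev_X _ _ _

lemma emb_X' (D : Dat K M W d g) :
    D.emb (algebraMap (QL d) (RatFunc (QL d)) (algebraMap K (QL d) g) * RatFunc.X⁻¹) =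
      pt (- D.s) D.x D.y := by
  rw [map_mul, map_inv₀, emb_C, emb_X, AlgHom.commutes, ← pt_mul D.s D.hs D.x D.y D.hxy]
  have := pt_ne D.hg D.s D.hs D.x D.y D.hxy
  field_simp

lemma emb_K (D : Dat K M W d g) (a : K) :
    D.emb (algebraMap K (RatFunc (QL d)) a) = algebraMap K W a := by
  rw [IsScalarTower.algebraMap_apply K (QL d) (RatFunc (QL d)), emb_C, AlgHom.commutes]

/-- the first coordinate -/
def rX (d g : K) [Fact (∀ r : K, r ^ 2 ≠ d + 0 * r)] : RatFunc (QL d) :=
  (RatFunc.X + algebraMap (QL d) (RatFunc (QL d)) (algebraMap K (QL d) g) * RatFunc.X⁻¹) *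
    (algebraMap (QL d) (RatFunc (QL d)) 2)⁻¹

/-- the second coordinate -/
def rY (d g : K) [Fact (∀ r : K, r ^ 2 ≠ d + 0 * r)] : RatFunc (QL d) :=
  (RatFunc.X - algebraMap (QL d) (RatFunc (QL d)) (algebraMap K (QL d) g) * RatFunc.X⁻¹) *
    (algebraMap (QL d) (RatFunc (QL d)) (2 * ⟨0, 1⟩))⁻¹

lemma emb_rX (D : Dat K M W d g) : D.emb (rX d g) = algebraMap M W D.x := by
  unfold rX
  rw [map_mul, map_add, emb_X, emb_X', map_inv₀, emb_C, map_ofNat]
  have h3 : (2 : W) ≠ 0 := two_ne K
  unfold pt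
  field_simp
  ring

lemma emb_rY (D : Dat K M W d g) : D.emb (rY d g) = algebraMap M W D.y := by
  unfold rY
  rw [map_mul, map_sub, emb_X, emb_X', map_inv₀, emb_C, map_mul, map_ofNat, iL_apply, map_zero,
    map_one, zero_add, one_mul]
  have h3 : (2 : W) ≠ 0 := two_ne K
  have h4 := s_ne D.s D.hs
  unfold pt
  field_simp
  ring

lemma exists_r (D : Dat K M W d g) (m : M) :
    ∃ r : RatFunc (QL d), D.emb r = algebraMap M W m ∧ D.neg.emb r = algebraMap M W m := by
  have hm : m ∈ IntermediateField.adjoin K {D.x, D.y} := by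
    rw [D.hgen]
    trivial
  induction hm using IntermediateField.adjoin_induction with
  | mem z hz =>
    rcases hz with rfl | rfl
    · exact ⟨rX d g, emb_rX D, emb_rX D.neg⟩
    · exact ⟨rY d g, emb_rY D, emb_rY D.neg⟩
  | algebraMap a =>
    refine ⟨algebraMap K _ a, ?_, ?_⟩
    · rw [emb_K, ← IsScalarTower.algebraMap_apply]
    · rw [emb_K, ← IsScalarTower.algebraMap_apply]
  | add a b _ _ ha hb =>
    obtain ⟨r, h1, h2⟩ := ha
    obtain ⟨r', h1', h2'⟩ := hb
    exact ⟨r + r', by rw [map_add, map_add, h1, h1'], by rw [map_add, map_add, h2, h2']⟩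
  | inv a _ ha =>
    obtain ⟨r, h1, h2⟩ := ha
    exact ⟨r⁻¹, by rw [map_inv₀, map_inv₀, h1], by rw [map_inv₀, map_inv₀, h2]⟩
  | mul a b _ _ ha hb =>
    obtain ⟨r, h1, h2⟩ := ha
    obtain ⟨r', h1', h2'⟩ := hb
    exact ⟨r * r', by rw [map_mul, map_mul, h1, h1'], by rw [map_mul, map_mul, h2, h2']⟩

/-- the embedding as a `K`-algebra homomorphism -/
def Dat.embA (D : Dat K M W d g) : RatFunc (QL d) →ₐ[K] W :=
  { D.emb with commutes' := fun a => emb_K D a }

lemma embA_apply (D : Dat K M W d g) (r : RatFunc (QL d)) : D.embA r = D.emb r := rfl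

lemma iL_neg (D : Dat K M W d g) (l : QL d) :
    iL D.neg.s D.neg.hs l = iL D.s D.hs (sg l) := by
  rw [iL_apply, iL_apply, sg_re, sg_im, map_neg]
  change _ + _ * (- D.s) = _
  ring

theorem const_alg (D : Dat K M W d g) (z : M) (hz : IsAlgebraic K z) :
    ∃ a : K, z = algebraMap K M a := by
  obtain ⟨r, h1, h2⟩ := exists_r D z
  have hr : IsAlgebraic K r := by
    have : IsAlgebraic K (D.embA r) := by
      rw [embA_apply, h1]
      exact hz.algebraMap
    exact (isAlgebraic_algHom_iff D.embA D.embA.injective).mp this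
  have hr' : IsAlgebraic (QL d) r := hr.tower_top (QL d)
  obtain ⟨l, rfl⟩ : ∃ c, r = RatFunc.C c := by
    by_contra h
    exact RatFunc.transcendental_of_ne_C r h hr'
  rw [← RatFunc.algebraMap_eq_C] at h1 h2
  rw [emb_C] at h1 h2
  rw [iL_neg] at h2
  rw [iL_apply] at h1 h2
  rw [sg_re, sg_im, map_neg] at h2
  refine ⟨l.re, (algebraMap M W).injective ?_⟩
  rw [← IsScalarTower.algebraMap_apply]
  have h3 : (2 : W) ≠ 0 := two_ne K
  have h4 : (2 : W) * algebraMap M W z = 2 * algebraMap K W l.re := by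
    linear_combination -h1 - h2
  exact mul_left_cancel₀ h3 h4

theorem s_notMem (D : Dat K M W d g) (m : M) : algebraMap M W m ≠ D.s := by
  intro h
  have h1 : m * m = algebraMap K M d := by
    apply (algebraMap M W).injective
    rw [map_mul, h, D.hs, ← IsScalarTower.algebraMap_apply]
  have h2 : IsAlgebraic K m := by
    have : IsAlgebraic K (m ^ 2) := by
      rw [pow_two, h1]
      exact isAlgebraic_algebraMap d
    exact IsAlgebraic.of_pow (by norm_num) this
  obtain ⟨a, rfl⟩ := const_alg D m h2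
  rw [← map_mul] at h1
  have h3 := (algebraMap K M).injective h1
  apply (Fact.out : ∀ r : K, r ^ 2 ≠ d + 0 * r) a
  rw [pow_two, h3]
  ring

end

end Pool.Agent.Q35.CF
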