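import Mathlib
import Pool.Agent.Q35.CF.Emb

/-! # Degrees of maps of an anisotropic conic to itself -/

set_option autoImplicit false
set_option linter.unusedSectionVars false

namespace Pool.Agent.Q35.CF

open Polynomial IntermediateField
open scoped nonZeroDivisors

noncomputable section

lemma two_of (K W : Type) [Field K] [Field W] [Algebra K W] (A : IntermediateField K W) (s : W)
    (hs : s * s ∈ A) (hsA : s ∉ A) : relfinrank A (A ⊔ K⟮s⟯) = 2 := by
  rw [relfinrank_eq_finrank_of_le le_sup_left]
  have e : extendScalars (F := A) (E := A ⊔ K⟮s⟯) le_sup_left = A⟮s⟯ := by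
    apply IntermediateField.restrictScalars_injective K
    rw [extendScalars_restrictScalars, restrictScalars_adjoin_eq_sup]
  rw [e]
  have hirr : Irreducible (X ^ 2 - C (⟨s * s, hs⟩ : A)) := by
    rw [X_pow_sub_C_irreducible_iff_of_prime Nat.prime_two]
    rintro ⟨b, hb⟩ h
    have h1 : b ^ 2 = s * s := congrArg Subtype.val h
    have h2 : (b - s) * (b + s) = 0 := by linear_combination h1
    rcases mul_eq_zero.mp h2 with h3 | h3
    · apply hsA
      rw [← sub_eq_zero.mp h3]
      exact hb
    · apply hsA
      have : s = - b := by linear_combination h3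
      rw [this]
      exact A.neg_mem hb
  have hmin : minpoly A s = X ^ 2 - C (⟨s * s, hs⟩ : A) := by
    symm
    apply minpoly.eq_of_irreducible_of_monic hirr
    · rw [map_sub, map_pow, aeval_X, aeval_C]
      change s ^ 2 - s * s = 0
      ring
    · exact monic_X_pow_sub_C _ two_ne_zero
  have hint : IsIntegral A s := by
    by_contra h
    have := minpoly.eq_zero h
    rw [hmin] at this
    exact (monic_X_pow_sub_C (⟨s * s, hs⟩ : A) two_ne_zero).ne_zero this
  rw [IntermediateField.adjoin.finrank hint, hmin, natDegree_X_pow_sub_C]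

variable {K M W : Type} [Field K] [CharZero K] [Field M] [Field W] [Algebra K M] [Algebra K W]
  [Algebra M W] [IsScalarTower K M W] {d g : K} [Fact (∀ r : K, r ^ 2 ≠ d + 0 * r)]

/-- the image of `L(r)` -/
def HH (D : Dat K M W d g) (r : RatFunc (QL d)) : IntermediateField K W :=
  (((QL d)⟮r⟯).restrictScalars K).map D.embA

/-- the image of `K(x, y)` -/
def NN (K : Type) {M : Type} (W : Type) [Field K] [Field M] [Field W] [Algebra K M] [Algebra K W]
    [Algebra M W] [IsScalarTower K M W] (x y : M) : IntermediateField K W :=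
  (IntermediateField.adjoin K {x, y}).map (IsScalarTower.toAlgHom K M W)

lemma HH_eq (D : Dat K M W d g) (x y : M)
    (hxy : x ^ 2 - algebraMap K M d * y ^ 2 = algebraMap K M g)
    (r : RatFunc (QL d)) (hr : D.emb r = pt D.s x y) :
    HH D r = NN K W x y ⊔ K⟮D.s⟯ := by
  have hxN : algebraMap M W x ∈ NN K W x y := by
    refine ⟨x, ?_, rfl⟩
    exact subset_adjoin K _ (Or.inl rfl)
  have hyN : algebraMap M W y ∈ NN K W x y := by
    refine ⟨y, ?_, rfl⟩
    exact subset_adjoin K _ (Or.inr rfl)
  have hsS : D.s ∈ K⟮D.s⟯ := mem_adjoin_simple_self K D.s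
  have hN : NN K W x y ≤ NN K W x y ⊔ K⟮D.s⟯ := le_sup_left
  have hS : K⟮D.s⟯ ≤ NN K W x y ⊔ K⟮D.s⟯ := le_sup_right
  apply le_antisymm
  · rintro w ⟨z, hz, rfl⟩
    have hz' : z ∈ (QL d)⟮r⟯ := hz
    clear hz
    change D.emb z ∈ _
    induction hz' using IntermediateField.adjoin_induction with
    | mem z hz =>
      rw [Set.mem_singleton_iff] at hz
      rw [hz, hr]
      exact add_mem (hN hxN) (mul_mem (hS hsS) (hN hyN))
    | algebraMap a =>
      rw [emb_C, iL_apply]
      refine add_mem (IntermediateField.algebraMap_mem _ _)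
        (mul_mem (IntermediateField.algebraMap_mem _ _) (hS hsS))
    | add a b _ _ ha hb =>
      rw [map_add]
      exact add_mem ha hb
    | inv a _ ha =>
      rw [map_inv₀]
      exact inv_mem ha
    | mul a b _ _ ha hb =>
      rw [map_mul]
      exact mul_mem ha hb
  · have hs1 : D.s ∈ HH D r := by
      refine ⟨algebraMap (QL d) _ ⟨0, 1⟩, ?_, ?_⟩
      · exact IntermediateField.algebraMap_mem (QL d)⟮r⟯ _
      · change D.emb _ = _
        rw [emb_C, iL_apply, map_zero, map_one, zero_add, one_mul]
    have hp : pt D.s x y ∈ HH D r := by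
      refine ⟨r, mem_adjoin_simple_self (QL d) r, ?_⟩
      exact hr
    have hne := pt_ne D.hg D.s D.hs x y hxy
    have hp' : pt (- D.s) x y ∈ HH D r := by
      have : pt (- D.s) x y = algebraMap K W g * (pt D.s x y)⁻¹ := by
        field_simp
        rw [mul_comm]
        exact pt_mul D.s D.hs x y hxy
      rw [this]
      exact mul_mem (IntermediateField.algebraMap_mem _ _) (inv_mem hp)
    have h3 : (2 : W) ≠ 0 := two_ne K
    have h4 := s_ne D.s D.hs
    have hx : algebraMap M W x ∈ HH D r := by
      have : algebraMap M W x = (pt D.s x y + pt (- D.s) x y) * (algebraMap K W 2)⁻¹ := by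
        rw [map_ofNat]
        unfold pt
        field_simp
        ring
      rw [this]
      exact mul_mem (add_mem hp hp') (inv_mem (IntermediateField.algebraMap_mem _ _))
    have hy : algebraMap M W y ∈ HH D r := by
      have : algebraMap M W y = (pt D.s x y - pt (- D.s) x y) * (algebraMap K W 2 * D.s)⁻¹ := by
        rw [map_ofNat]
        unfold pt
        field_simp
        ring
      rw [this]
      exact mul_mem (sub_mem hp hp')
        (inv_mem (mul_mem (IntermediateField.algebraMap_mem _ _) hs1))
    refine sup_le ?_ ?_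
    · unfold NN
      rw [adjoin_map, adjoin_le_iff]
      rintro _ ⟨z, rfl | rfl, rfl⟩
      · exact hx
      · exact hy
    · rw [adjoin_le_iff]
      rintro _ rfl
      exact hs1

lemma NN_two (D : Dat K M W d g) (x y : M) :
    relfinrank (NN K W x y) (NN K W x y ⊔ K⟮D.s⟯) = 2 := by
  apply two_of
  · rw [D.hs]
    exact IntermediateField.algebraMap_mem _ _
  · rintro ⟨m, _, hm⟩
    exact s_notMem D m hm

theorem finrank_eq (D : Dat K M W d g) (x y : M)
    (hxy : x ^ 2 - algebraMap K M d * y ^ 2 = algebraMap K M g)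
    (r : RatFunc (QL d)) (hr : D.emb r = pt D.s x y) :
    Module.finrank (IntermediateField.adjoin K {x, y}) M =
      max r.num.natDegree r.denom.natDegree := by
  rw [← RatFunc.finrank_eq_max_natDegree r]
  have e1 : relfinrank (NN K W x y) (NN K W D.x D.y) =
      Module.finrank (IntermediateField.adjoin K {x, y}) M := by
    unfold NN
    rw [relfinrank_map_map, D.hgen, relfinrank_top_right]
  have hX := HH_eq D D.x D.y D.hxy RatFunc.X (emb_X D)
  have e2 : relfinrank (NN K W D.x D.y) (HH D RatFunc.X) = 2 := by
    rw [hX]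
    exact NN_two D D.x D.y
  have hR := HH_eq D x y hxy r hr
  have e3 : relfinrank (NN K W x y) (HH D r) = 2 := by
    rw [hR]
    exact NN_two D x y
  have e4 : relfinrank (HH D r) (HH D RatFunc.X) = Module.finrank (QL d)⟮r⟯ (RatFunc (QL d)) := by
    unfold HH
    rw [relfinrank_map_map, RatFunc.adjoin_X, restrictScalars_top, relfinrank_top_right]
    rfl
  have l1 : NN K W x y ≤ NN K W D.x D.y := by
    unfold NN
    rw [D.hgen]
    exact map_mono _ le_top
  have l2 : NN K W D.x D.y ≤ HH D RatFunc.X := by
    rw [hX]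
    exact le_sup_left
  have l3 : NN K W x y ≤ HH D r := by
    rw [hR]
    exact le_sup_left
  have l4 : HH D r ≤ HH D RatFunc.X := by
    unfold HH
    rw [RatFunc.adjoin_X, restrictScalars_top]
    exact map_mono _ le_top
  have h1 := relfinrank_mul_relfinrank l1 l2
  have h2 := relfinrank_mul_relfinrank l3 l4
  rw [e1, e2] at h1
  rw [e3, e4] at h2
  rw [← h2] at h1
  omega

end

end Pool.Agent.Q35.CF
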