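import Mathlib
import Pool.Agent.Q35.CF.Deg
import Pool.Agent.Y201.C3.Stm

/-! # Job CONIC of project C3 -/

set_option autoImplicit false
set_option linter.unusedSectionVars false

namespace Pool.Agent.Q35.CF

open Polynomial IntermediateField
open scoped nonZeroDivisors

noncomputable section

section Core

variable {K M W : Type} [Field K] [CharZero K] [Field M] [Field W] [Algebra K M] [Algebra K W]
  [Algebra M W] [IsScalarTower K M W] {d g : K} [Fact (∀ r : K, r ^ 2 ≠ d + 0 * r)]

lemma exists_pt (D : Dat K M W d g) (x y : M) :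
    ∃ r : RatFunc (QL d), D.emb r = pt D.s x y ∧ D.neg.emb r = pt (- D.s) x y := by
  obtain ⟨r1, h1, h1'⟩ := exists_r D x
  obtain ⟨r2, h2, h2'⟩ := exists_r D y
  refine ⟨r1 + algebraMap (QL d) (RatFunc (QL d)) ⟨0, 1⟩ * r2, ?_, ?_⟩
  · rw [map_add, map_mul, h1, h2, emb_C, iL_apply, map_zero, map_one, zero_add, one_mul]
    rfl
  · rw [map_add, map_mul, h1', h2', emb_C, iL_apply, map_zero, map_one, zero_add, one_mul]
    rfl

lemma emb_apply (D : Dat K M W d g) (r : RatFunc (QL d)) :
    D.emb r = eval₂ (iL D.s D.hs : QL d →+* W) (pt D.s D.x D.y) r.num /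
      eval₂ (iL D.s D.hs : QL d →+* W) (pt D.s D.x D.y) r.denom := ev_apply _ _ _ r

lemma emb_inj (D : Dat K M W d g) (p : (QL d)[X])
    (hp : eval₂ (iL D.s D.hs : QL d →+* W) (pt D.s D.x D.y) p = 0) : p = 0 :=
  eval_inj (iL D.s D.hs) _ (transc D.hg D.s D.hs D.x D.y D.hxy D.hM D.hgen) p hp

theorem norm_pow_aux {L : Type} [Field L] (i i' : L →+* W) (σ : L →+* L) (gL : L) (t t' gW : W)
    (hgL : gL ≠ 0) (hσ : ∀ x, σ (σ x) = x) (hσg : σ gL = gL) (hi : i' = i.comp σ)
    (hinj : ∀ p : L[X], eval₂ i t p = 0 → p = 0) (hinj' : ∀ p : L[X], eval₂ i' t' p = 0 → p = 0)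
    (ht : t ≠ 0) (htt : t * t' = i gL) (hgW : i gL = gW) (r : RatFunc L) (hr0 : r ≠ 0)
    (hprod : (eval₂ i t r.num / eval₂ i t r.denom) * (eval₂ i' t' r.num / eval₂ i' t' r.denom) =
      gW) :
    ∃ u : L, σ u * u = gL ^ (max r.num.natDegree r.denom.natDegree + 1) := by
  set n := max r.num.natDegree r.denom.natDegree with hn
  have hP : r.num.natDegree ≤ n := le_max_left _ _
  have hQ : r.denom.natDegree ≤ n := le_max_right _ _
  have hQ1 : eval₂ i t r.denom ≠ 0 := fun h => r.denom_ne_zero (hinj _ h)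
  have hQ2 : eval₂ i' t' r.denom ≠ 0 := fun h => r.denom_ne_zero (hinj' _ h)
  have s1 := st_eval σ gL n i r.num hP t t' ht htt
  have s2 := st_eval σ gL n i r.denom hQ t t' ht htt
  rw [← hi] at s1 s2
  have key : st σ gL n r.num * r.num = C gL * (st σ gL n r.denom * r.denom) := by
    rw [← sub_eq_zero]
    apply hinj
    rw [eval₂_sub, eval₂_mul, eval₂_mul, eval₂_mul, eval₂_C, s1, s2, hgW, ← hprod]
    field_simp
    ring
  exact norm_of_star σ gL n hσ hgL hσg r.num r.denom
    (RatFunc.num_ne_zero hr0) r.denom_ne_zero r.isCoprime_num_denom hn key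

theorem norm_pow (D : Dat K M W d g) (x y : M)
    (hxy : x ^ 2 - algebraMap K M d * y ^ 2 = algebraMap K M g)
    (r : RatFunc (QL d)) (hr : D.emb r = pt D.s x y) (hr' : D.neg.emb r = pt (- D.s) x y) :
    ∃ a b : K, a ^ 2 - d * b ^ 2 = g ^ (max r.num.natDegree r.denom.natDegree + 1) := by
  have hne := pt_ne D.hg D.s D.hs x y hxy
  have hr0 : r ≠ 0 := by
    rintro rfl
    rw [map_zero] at hr
    exact hne hr.symm
  have hgL : algebraMap K (QL d) g ≠ 0 := (_root_.map_ne_zero _).mpr D.hg
  have hcomp : (iL D.neg.s D.neg.hs : QL d →+* W) = (iL D.s D.hs : QL d →+* W).comp sg :=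
    RingHom.ext fun l => iL_neg D l
  have ht := pt_ne D.hg D.s D.hs D.x D.y D.hxy
  have htt : pt D.s D.x D.y * pt (- D.s) D.x D.y =
      (iL D.s D.hs : QL d →+* W) (algebraMap K (QL d) g) := by
    rw [pt_mul D.s D.hs D.x D.y D.hxy]
    exact ((iL D.s D.hs : QL d →ₐ[K] W).commutes g).symm
  have hprod : D.emb r * D.neg.emb r = algebraMap K W g := by
    rw [hr, hr', pt_mul D.s D.hs x y hxy]
  rw [emb_apply D, emb_apply D.neg] at hprod
  obtain ⟨u, hu⟩ := norm_pow_aux (iL D.s D.hs : QL d →+* W) (iL D.neg.s D.neg.hs : QL d →+* W)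
    sg (algebraMap K (QL d) g) (pt D.s D.x D.y) (pt D.neg.s D.neg.x D.neg.y) (algebraMap K W g)
    hgL sg_sg (sg_alg g) hcomp (emb_inj D) (emb_inj D.neg) ht htt
    ((iL D.s D.hs : QL d →ₐ[K] W).commutes g) r hr0 hprod
  rw [norm_alg, ← map_pow] at hu
  exact ⟨u.re, u.im, (algebraMap K (QL d)).injective hu⟩

theorem core_odd (D : Dat K M W d g) (hani : ∀ a b : K, a ^ 2 - d * b ^ 2 ≠ g) (x y : M)
    (hxy : x ^ 2 - algebraMap K M d * y ^ 2 = algebraMap K M g) :
    Odd (Module.finrank (IntermediateField.adjoin K {x, y}) M) := by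
  obtain ⟨r, hr, hr'⟩ := exists_pt D x y
  rw [finrank_eq D x y hxy r hr]
  obtain ⟨a, b, hab⟩ := norm_pow D x y hxy r hr hr'
  rw [← Nat.not_even_iff_odd]
  rintro ⟨k, hk⟩
  rw [hk] at hab
  apply hani (a / g ^ k) (b / g ^ k)
  have hgk : g ^ k ≠ 0 := pow_ne_zero k D.hg
  field_simp
  rw [hab]
  ring

end Core

section Matrix

variable {K : Type} [Field K] [CharZero K]

lemma diag (A : Matrix (Fin 3) (Fin 3) K) (hA : A.IsSymm)
    (hani : ∀ w : Fin 3 → K, ∑ i, ∑ j, w i * A i j * w j = 0 → w = 0) :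
    ∃ a b c α β γ : K, ∀ (R : Type) [CommRing R] [Algebra K R] (w : Fin 3 → R),
      ∑ i, ∑ j, w i * algebraMap K R (A i j) * w j =
        algebraMap K R a * (w 0 + algebraMap K R α * w 1 + algebraMap K R β * w 2) ^ 2 +
        algebraMap K R b * (w 1 + algebraMap K R γ * w 2) ^ 2 + algebraMap K R c * w 2 ^ 2 := by
  have ha : A 0 0 ≠ 0 := by
    intro h
    have h1 := hani ![1, 0, 0] (by
      simp [Fin.sum_univ_three, h])
    have := congrFun h1 0
    simp at this
  obtain ⟨α, hα⟩ : ∃ α, A 0 0 * α = A 0 1 := ⟨A 0 1 / A 0 0, by field_simp⟩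
  obtain ⟨β, hβ⟩ : ∃ β, A 0 0 * β = A 0 2 := ⟨A 0 2 / A 0 0, by field_simp⟩
  have s10 : A 1 0 = A 0 1 := hA.apply 0 1
  have s20 : A 2 0 = A 0 2 := hA.apply 0 2
  have s21 : A 2 1 = A 1 2 := hA.apply 1 2
  have hb : A 1 1 - α * A 0 1 ≠ 0 := by
    intro h
    have h1 := hani ![-α, 1, 0] (by
      simp only [Fin.sum_univ_three, Matrix.cons_val_zero, Matrix.cons_val_one,
        Matrix.cons_val_two, Matrix.head_cons, Matrix.tail_cons, s10]
      simp
      linear_combination h + α * hα)
    have := congrFun h1 1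
    simp at this
  obtain ⟨γ, hγ⟩ : ∃ γ, (A 1 1 - α * A 0 1) * γ = A 1 2 - α * A 0 2 :=
    ⟨(A 1 2 - α * A 0 2) / (A 1 1 - α * A 0 1), by field_simp⟩
  refine ⟨A 0 0, A 1 1 - α * A 0 1, A 2 2 - β * A 0 2 - γ * (A 1 2 - α * A 0 2), α, β, γ, ?_⟩
  intro R _ _ w
  have e1 := congrArg (algebraMap K R) hα
  have e2 := congrArg (algebraMap K R) hβ
  have e3 := congrArg (algebraMap K R) hγ
  simp only [map_sub, map_mul] at e1 e2 e3 ⊢
  simp only [Fin.sum_univ_three, s10, s20, s21]
  set a := algebraMap K R (A 0 0)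
  set p := algebraMap K R (A 0 1)
  set q := algebraMap K R (A 0 2)
  set r := algebraMap K R (A 1 1)
  set t := algebraMap K R (A 1 2)
  set u := algebraMap K R (A 2 2)
  set α' := algebraMap K R α
  set β' := algebraMap K R β
  set γ' := algebraMap K R γ
  linear_combination (-2 * w 0 * w 1 - α' * w 1 ^ 2) * e1 +
    (-2 * w 0 * w 2 - β' * w 2 ^ 2 - 2 * α' * w 1 * w 2) * e2 +
    (-2 * w 1 * w 2 - γ' * w 2 ^ 2) * e3

lemma diag_ani (A : Matrix (Fin 3) (Fin 3) K)
    (hani : ∀ w : Fin 3 → K, ∑ i, ∑ j, w i * A i j * w j = 0 → w = 0)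
    (a b c α β γ : K) (h : ∀ (R : Type) [CommRing R] [Algebra K R] (w : Fin 3 → R),
      ∑ i, ∑ j, w i * algebraMap K R (A i j) * w j =
        algebraMap K R a * (w 0 + algebraMap K R α * w 1 + algebraMap K R β * w 2) ^ 2 +
        algebraMap K R b * (w 1 + algebraMap K R γ * w 2) ^ 2 + algebraMap K R c * w 2 ^ 2)
    (x y z : K) (hxyz : a * x ^ 2 + b * y ^ 2 + c * z ^ 2 = 0) : x = 0 ∧ y = 0 ∧ z = 0 := by
  have h1 := h K ![x - α * (y - γ * z) - β * z, y - γ * z, z]
  simp only [Algebra.algebraMap_self, RingHom.id_apply] at h1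
  have h2 := hani ![x - α * (y - γ * z) - β * z, y - γ * z, z] (by
    rw [h1]
    simp only [Matrix.cons_val_zero, Matrix.cons_val_one, Matrix.cons_val_two, Matrix.head_cons,
      Matrix.tail_cons]
    linear_combination hxyz)
  have e0 : x - α * (y - γ * z) - β * z = 0 := by
    have := congrFun h2 0
    simpa using this
  have e1 : y - γ * z = 0 := by
    have := congrFun h2 1
    simpa using this
  have e2 : z = 0 := by
    have := congrFun h2 2
    simpa using this
  subst e2
  have ey : y = 0 := by linear_combination e1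
  subst ey
  exact ⟨by linear_combination e0, rfl, rfl⟩

lemma alg_of_gen {M : Type} [Field M] [Algebra K M] (S : Set M)
    (hS : ∀ z ∈ S, IsAlgebraic K z) (h : IntermediateField.adjoin K S = ⊤) :
    Algebra.IsAlgebraic K M := by
  have h5 : Algebra.IsAlgebraic K (IntermediateField.adjoin K S) :=
    IntermediateField.isAlgebraic_adjoin fun z hz => (hS z hz).isIntegral
  rw [h] at h5
  exact ⟨fun z => by
    have := h5.isAlgebraic (⟨z, trivial⟩ : (⊤ : IntermediateField K M))
    exact (isAlgebraic_algebraMap_iff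
      (algebraMap (⊤ : IntermediateField K M) M).injective).mpr this⟩

lemma ratio_eq {M : Type} [Field M] [Algebra K M] (v : Fin 3 → M) (hv : v 2 ≠ 0) (α β γ : K) :
    IntermediateField.adjoin K {z : M | ∃ i j, z = v i / v j} =
      IntermediateField.adjoin K {(v 0 + algebraMap K M α * v 1 + algebraMap K M β * v 2) / v 2,
        (v 1 + algebraMap K M γ * v 2) / v 2} := by
  apply le_antisymm
  · rw [adjoin_le_iff]
    set F := IntermediateField.adjoin K
      {(v 0 + algebraMap K M α * v 1 + algebraMap K M β * v 2) / v 2,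
        (v 1 + algebraMap K M γ * v 2) / v 2} with hF
    have h0 : (v 0 + algebraMap K M α * v 1 + algebraMap K M β * v 2) / v 2 ∈ F :=
      subset_adjoin K _ (Or.inl rfl)
    have h1 : (v 1 + algebraMap K M γ * v 2) / v 2 ∈ F := subset_adjoin K _ (Or.inr rfl)
    have g2 : v 2 / v 2 ∈ F := by
      rw [div_self hv]
      exact one_mem F
    have g1 : v 1 / v 2 ∈ F := by
      have : v 1 / v 2 = (v 1 + algebraMap K M γ * v 2) / v 2 - algebraMap K M γ := by
        field_simp
        ring
      rw [this]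
      exact sub_mem h1 (IntermediateField.algebraMap_mem _ _)
    have g0 : v 0 / v 2 ∈ F := by
      have : v 0 / v 2 = (v 0 + algebraMap K M α * v 1 + algebraMap K M β * v 2) / v 2 -
          algebraMap K M α * (v 1 / v 2) - algebraMap K M β := by
        field_simp
        ring
      rw [this]
      exact sub_mem (sub_mem h0 (mul_mem (IntermediateField.algebraMap_mem _ _) g1))
        (IntermediateField.algebraMap_mem _ _)
    have gi : ∀ i, v i / v 2 ∈ F := by
      intro i
      fin_cases i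
      · exact g0
      · exact g1
      · exact g2
    rintro z ⟨i, j, rfl⟩
    rw [← div_div_div_cancel_right₀ hv]
    exact div_mem (gi i) (gi j)
  · rw [adjoin_le_iff]
    have hi : ∀ i j, v i / v j ∈ IntermediateField.adjoin K {z : M | ∃ i j, z = v i / v j} :=
      fun i j => subset_adjoin K _ ⟨i, j, rfl⟩
    rintro z (rfl | rfl)
    · have : (v 0 + algebraMap K M α * v 1 + algebraMap K M β * v 2) / v 2 =
          v 0 / v 2 + algebraMap K M α * (v 1 / v 2) + algebraMap K M β := by
        field_simp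
      rw [this]
      exact add_mem (add_mem (hi 0 2) (mul_mem (IntermediateField.algebraMap_mem _ _) (hi 1 2)))
        (IntermediateField.algebraMap_mem _ _)
    · have : (v 1 + algebraMap K M γ * v 2) / v 2 = v 1 / v 2 + algebraMap K M γ := by
        field_simp
      rw [this]
      exact add_mem (hi 1 2) (IntermediateField.algebraMap_mem _ _)

end Matrix

/-- job CONIC -/
theorem conic : Pool.Agent.Y201.C3.S_CONIC := by
  intro K M _ _ _ _ A hA hani hM v hv hgen
  obtain ⟨a, b, c, α, β, γ, h⟩ := diag A hA hani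
  have han := diag_ani A hani a b c α β γ h
  have ha : a ≠ 0 := by
    intro h0
    exact one_ne_zero (han 1 0 0 (by rw [h0]; ring)).1
  have hb : b ≠ 0 := by
    intro h0
    exact one_ne_zero (han 0 1 0 (by rw [h0]; ring)).2.1
  have hc : c ≠ 0 := by
    intro h0
    exact one_ne_zero (han 0 0 1 (by rw [h0]; ring)).2.2
  set d := - b / a with hd
  set g := - c / a with hg
  have had : a * d = - b := by
    rw [hd]
    field_simp
  have hag : a * g = - c := by
    rw [hg]
    field_simp
  have hg0 : g ≠ 0 := by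
    rw [hg]
    exact div_ne_zero (neg_ne_zero.mpr hc) ha
  have hsq : ∀ r : K, r ^ 2 ≠ d + 0 * r := by
    intro r hr
    refine one_ne_zero (han r 1 0 ?_).2.1
    rw [hr]
    linear_combination had
  have : Fact (∀ r : K, r ^ 2 ≠ d + 0 * r) := ⟨hsq⟩
  have hng : ∀ p q : K, p ^ 2 - d * q ^ 2 ≠ g := by
    intro p q hpq
    refine one_ne_zero (han p q 1 ?_).2.2
    have : p ^ 2 = g + d * q ^ 2 := by linear_combination hpq
    rw [this]
    linear_combination hag + q ^ 2 * had
  have haM : algebraMap K M a ≠ 0 := (_root_.map_ne_zero _).mpr ha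
  have hadM : algebraMap K M a * algebraMap K M d = - algebraMap K M b := by
    rw [← map_mul, had, map_neg]
  have hagM : algebraMap K M a * algebraMap K M g = - algebraMap K M c := by
    rw [← map_mul, hag, map_neg]
  -- affine coordinates
  have aff : ∀ w : Fin 3 → M, ∑ i, ∑ j, w i * algebraMap K M (A i j) * w j = 0 → w 2 ≠ 0 →
      ((w 0 + algebraMap K M α * w 1 + algebraMap K M β * w 2) / w 2) ^ 2 -
        algebraMap K M d * ((w 1 + algebraMap K M γ * w 2) / w 2) ^ 2 = algebraMap K M g := by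
    intro w hw hw2
    rw [h M w] at hw
    apply mul_left_cancel₀ haM
    rw [mul_sub, ← mul_assoc, hadM, hagM]
    field_simp
    linear_combination hw
  have aff0 : ∀ w : Fin 3 → M, ∑ i, ∑ j, w i * algebraMap K M (A i j) * w j = 0 → w 2 = 0 →
      w ≠ 0 → w 1 ≠ 0 ∧ ((w 0 + algebraMap K M α * w 1) / w 1) ^ 2 = algebraMap K M d := by
    intro w hw hw2 hw0
    rw [h M w, hw2] at hw
    have h1 : w 1 ≠ 0 := by
      intro h1
      rw [h1] at hw
      have h2 : algebraMap K M a * (w 0) ^ 2 = 0 := by linear_combination hw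
      have h3 : w 0 = 0 := by
        rcases mul_eq_zero.mp h2 with h4 | h4
        · exact absurd h4 haM
        · exact pow_eq_zero_iff (two_ne_zero) |>.mp h4
      apply hw0
      funext i
      fin_cases i
      · exact h3
      · exact h1
      · exact hw2
    refine ⟨h1, ?_⟩
    apply mul_left_cancel₀ haM
    rw [hadM]
    field_simp
    linear_combination hw
  have hv0 : v ≠ 0 := by
    rintro rfl
    apply hM
    refine alg_of_gen _ ?_ hgen
    rintro z ⟨i, j, rfl⟩
    rw [Pi.zero_apply, Pi.zero_apply, div_zero]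
    exact isAlgebraic_zero
  have hv2 : v 2 ≠ 0 := by
    intro hv2
    obtain ⟨h1, h2⟩ := aff0 v hv hv2 hv0
    have h3 : IsAlgebraic K ((v 0 + algebraMap K M α * v 1) / v 1) := by
      apply IsAlgebraic.of_pow (n := 2) (by norm_num)
      rw [h2]
      exact isAlgebraic_algebraMap d
    have h4 : ∀ i, IsAlgebraic K (v i / v 1) := by
      intro i
      fin_cases i
      · change IsAlgebraic K (v 0 / v 1)
        have : v 0 / v 1 = (v 0 + algebraMap K M α * v 1) / v 1 - algebraMap K M α := by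
          field_simp
          ring
        rw [this]
        exact h3.sub (isAlgebraic_algebraMap α)
      · change IsAlgebraic K (v 1 / v 1)
        rw [div_self h1]
        exact isAlgebraic_one
      · change IsAlgebraic K (v 2 / v 1)
        rw [hv2, zero_div]
        exact isAlgebraic_zero
    apply hM
    refine alg_of_gen _ ?_ hgen
    rintro z ⟨i, j, rfl⟩
    rw [← div_div_div_cancel_right₀ h1, div_eq_mul_inv]
    exact (h4 i).mul (h4 j).inv
  obtain ⟨s, hs⟩ : ∃ s : AlgebraicClosure M, s ^ 2 = algebraMap K (AlgebraicClosure M) d :=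
    IsAlgClosed.exists_pow_nat_eq _ (by norm_num)
  let D : Dat K M (AlgebraicClosure M) d g :=
    { s := s
      hs := by rw [← pow_two, hs]
      x := (v 0 + algebraMap K M α * v 1 + algebraMap K M β * v 2) / v 2
      y := (v 1 + algebraMap K M γ * v 2) / v 2
      hxy := aff v hv hv2
      hM := hM
      hgen := by rw [← ratio_eq v hv2 α β γ, hgen]
      hg := hg0 }
  refine ⟨const_alg D, ?_⟩
  intro v' hv' hv'0
  have hv'2 : v' 2 ≠ 0 := by
    intro hv'2
    obtain ⟨h1, h2⟩ := aff0 v' hv'0 hv'2 hv'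
    have h3 : IsAlgebraic K ((v' 0 + algebraMap K M α * v' 1) / v' 1) := by
      apply IsAlgebraic.of_pow (n := 2) (by norm_num)
      rw [h2]
      exact isAlgebraic_algebraMap d
    obtain ⟨e, he⟩ := const_alg D _ h3
    rw [he, ← map_pow] at h2
    apply hsq e
    rw [(algebraMap K M).injective h2]
    ring
  rw [ratio_eq v' hv'2 α β γ]
  exact core_odd D hng _ _ (aff v' hv'0 hv'2)



end

end Pool.Agent.Q35.CF
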